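import Pool.Agent.GR.Flow

/-! Arcs of level curves in compact sets (helper63, for project HS of helper44). -/

open Set Topology Filter

namespace Pool.Agent.K9h63.HS

/-- a curve on which a function is strictly monotone while it is in the compact set `K` leaves `K` -/
lemma fwd {K : Set (ℝ × ℝ)} (hK : IsCompact K) {l : ℝ → ℝ × ℝ} (hl : Continuous l) {u v : ℝ → ℝ}
    (hu : ∀ s, HasDerivAt u (v s) s) {m M : ℝ} (hm : 0 < m) (hM : ∀ s, l s ∈ K → |u s| ≤ M)
    (hv : ∀ s, l s ∈ K → m ≤ |v s|) (h0 : l 0 ∈ K) :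
    ∃ β : ℝ, 0 ≤ β ∧ (∀ s ∈ Icc 0 β, l s ∈ K) ∧ l β ∈ frontier K := by
  set A : Set ℝ := {b | 0 ≤ b ∧ ∀ s ∈ Icc 0 b, l s ∈ K} with hA
  have hA0 : (0:ℝ) ∈ A := ⟨le_rfl, fun s hs => by
    have : s = 0 := le_antisymm hs.2 hs.1
    rw [this]; exact h0⟩
  have hbdd : ∀ b ∈ A, b ≤ 2 * M / m := by
    intro b hb
    rcases hb.1.eq_or_lt with h | h
    · rw [← h]
      have : 0 ≤ M := (abs_nonneg _).trans (hM 0 h0)
      positivity
    · obtain ⟨ξ, hξ, hξ'⟩ := exists_hasDerivAt_eq_slope u v h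
        (fun s _ => (hu s).continuousAt.continuousWithinAt) (fun s _ => hu s)
      have h1 := hv ξ (hb.2 ξ ⟨hξ.1.le, hξ.2.le⟩)
      rw [hξ', abs_div, sub_zero, abs_of_pos h, le_div_iff₀ h] at h1
      have h2 : |u b - u 0| ≤ M + M :=
        (abs_sub _ _).trans (add_le_add (hM b (hb.2 b ⟨h.le, le_rfl⟩)) (hM 0 h0))
      rw [le_div_iff₀ hm]
      linarith
  have hBdd : BddAbove A := ⟨2 * M / m, hbdd⟩
  set β := sSup A with hβ
  have hβ0 : 0 ≤ β := le_csSup hBdd hA0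
  have hlt : ∀ s, 0 ≤ s → s < β → l s ∈ K := by
    intro s hs hsβ
    obtain ⟨b, hb, hsb⟩ := exists_lt_of_lt_csSup ⟨0, hA0⟩ hsβ
    exact hb.2 s ⟨hs, hsb.le⟩
  have hβK : l β ∈ K := by
    rcases hβ0.eq_or_lt with h | h
    · rw [← h]; exact h0
    · have h1 : β ∈ closure (Ico 0 β) := by
        rw [closure_Ico h.ne]
        exact ⟨h.le, le_rfl⟩
      have h2 : l β ∈ closure (l '' Ico 0 β) := image_closure_subset_closure_image hl ⟨β, h1, rfl⟩
      refine hK.isClosed.closure_subset_iff.2 ?_ h2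
      rintro _ ⟨s, hs, rfl⟩
      exact hlt s hs.1 hs.2
  have hin : ∀ s ∈ Icc 0 β, l s ∈ K := by
    intro s hs
    rcases hs.2.eq_or_lt with h | h
    · rw [h]; exact hβK
    · exact hlt s hs.1 h
  refine ⟨β, hβ0, hin, ?_⟩
  rw [frontier, Set.mem_sdiff]
  refine ⟨subset_closure hβK, fun hint => ?_⟩
  have h1 : l ⁻¹' interior K ∈ 𝓝 β := hl.continuousAt.preimage_mem_nhds
    (isOpen_interior.mem_nhds hint)
  obtain ⟨δ, hδ, hball⟩ := Metric.mem_nhds_iff.1 h1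
  have h2 : β + δ / 2 ∈ A := by
    refine ⟨by positivity, fun s hs => ?_⟩
    rcases le_or_gt s β with h | h
    · exact hin s ⟨hs.1, h⟩
    · apply interior_subset
      apply hball
      rw [Metric.mem_ball, Real.dist_eq, abs_of_pos (by linarith)]
      linarith [hs.2]
  have := le_csSup hBdd h2
  linarith

/-- wedge product -/
def wd (a b : ℝ × ℝ) : ℝ := a.1 * b.2 - a.2 * b.1

theorem arc0 (G : ℝ × ℝ → ℝ × ℝ) (L : ℝ × ℝ → ℝ) (hG : ContDiff ℝ 1 G) (hL : ContDiff ℝ 1 L)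
    (hLG : ∀ z, fderiv ℝ L z (G z) = 0) (K : Set (ℝ × ℝ)) (hK : IsCompact K) (z : ℝ × ℝ)
    (hz : z ∈ K) (hLz : L z = 0) (e : ℝ × ℝ) (he : ∀ z ∈ K, L z = 0 → wd (G z) e ≠ 0) :
    ∃ (α β : ℝ) (l : ℝ → ℝ × ℝ), α ≤ 0 ∧ 0 ≤ β ∧ l 0 = z ∧
      (∀ s ∈ Icc α β, HasDerivAt l (G (l s)) s ∧ l s ∈ K ∧ L (l s) = 0) ∧
      l α ∈ frontier K ∧ l β ∈ frontier K := by
  -- cutoff
  obtain ⟨R, hR0, hR⟩ : ∃ R : ℝ, 0 < R ∧ K ⊆ Metric.closedBall 0 R := by
    obtain ⟨R, hR⟩ := hK.isBounded.subset_closedBall (0 : ℝ × ℝ)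
    exact ⟨max R 1, by positivity, hR.trans (Metric.closedBall_subset_closedBall (le_max_left _ _))⟩
  let χ : ContDiffBump (0 : ℝ × ℝ) := ⟨R, R + 1, hR0, by linarith⟩
  set X : ℝ × ℝ → ℝ × ℝ := fun w => χ w • G w with hX
  have hXK : ∀ w ∈ K, X w = G w := by
    intro w hw
    rw [hX]
    simp only
    rw [χ.one_of_mem_closedBall (hR hw), one_smul]
  have hXc : ContDiff ℝ 1 X := (χ.contDiff (n := 1)).smul hG
  have hXs : HasCompactSupport X := χ.hasCompactSupport.smul_right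
  obtain ⟨C, hC⟩ := hXc.lipschitzWith_of_hasCompactSupport hXs one_ne_zero
  obtain ⟨B, hB⟩ := hXs.exists_bound_of_continuous hXc.continuous
  have hB0 : 0 ≤ B := (norm_nonneg _).trans (hB 0)
  obtain ⟨l, hl0, hl⟩ := Pool.Agent.GR.Flow.exists_solution (M := ⟨B, hB0⟩) hC (fun x => hB x) z
  have hlc : Continuous l := continuous_iff_continuousAt.2 fun s => (hl s).continuousAt
  -- L is constant along l
  have hLl : ∀ s, L (l s) = 0 := by
    have hd : ∀ s, HasDerivAt (fun s => L (l s)) 0 s := by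
      intro s
      have h1 := ((hL.differentiable one_ne_zero (l s)).hasFDerivAt).comp_hasDerivAt s (hl s)
      have h2 : fderiv ℝ L (l s) (X (l s)) = 0 := by
        rw [hX]
        simp only
        rw [map_smul, hLG, smul_zero]
      rw [h2] at h1
      exact h1
    intro s
    have h1 : (fun s => L (l s)) s = (fun s => L (l s)) 0 :=
      is_const_of_deriv_eq_zero (fun s => (hd s).differentiableAt) (fun s => (hd s).deriv) s 0
    simp only at h1
    rw [h1, hl0, hLz]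
  -- bounds
  have hcw : Continuous fun w : ℝ × ℝ => |wd (G w) e| := by
    unfold wd
    have := hG.continuous
    fun_prop
  have hcu : Continuous fun w : ℝ × ℝ => |wd w e| := by
    unfold wd
    fun_prop
  have hK0 : IsCompact (K ∩ {w | L w = 0}) :=
    hK.inter_right (isClosed_singleton.preimage hL.continuous)
  obtain ⟨w₀, hw₀, hmin⟩ := hK0.exists_isMinOn ⟨z, hz, hLz⟩ hcw.continuousOn
  obtain ⟨w₁, hw₁, hmax⟩ := hK.exists_isMaxOn ⟨z, hz⟩ hcu.continuousOn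
  have hm : 0 < |wd (G w₀) e| := abs_pos.2 (he w₀ hw₀.1 hw₀.2)
  have hu : ∀ s, HasDerivAt (fun s => wd (l s) e) (wd (X (l s)) e) s := by
    intro s
    have h1 : HasDerivAt (fun s => (l s).1) (X (l s)).1 s := (hl s).fst
    have h2 : HasDerivAt (fun s => (l s).2) (X (l s)).2 s := (hl s).snd
    exact (h1.mul_const e.2).sub (h2.mul_const e.1)
  have hM : ∀ s, l s ∈ K → |wd (l s) e| ≤ |wd w₁ e| := fun s hs => hmax hs
  have hv : ∀ s, l s ∈ K → |wd (G w₀) e| ≤ |wd (X (l s)) e| := by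
    intro s hs
    rw [hXK _ hs]
    exact hmin ⟨hs, hLl s⟩
  obtain ⟨β, hβ0, hβK, hβf⟩ := fwd hK hlc hu hm hM hv (by rw [hl0]; exact hz)
  have hlc' : Continuous fun s => l (-s) := hlc.comp continuous_neg
  have hu' : ∀ s, HasDerivAt (fun s => wd (l (-s)) e) (-wd (X (l (-s))) e) s := by
    intro s
    have h1 := (hu (-s)).scomp s (hasDerivAt_neg s)
    simpa [Function.comp_def] using h1
  obtain ⟨α, hα0, hαK, hαf⟩ := fwd hK hlc' hu' hm (fun s hs => hM (-s) hs)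
    (fun s hs => by rw [abs_neg]; exact hv (-s) hs) (by rw [neg_zero, hl0]; exact hz)
  refine ⟨-α, β, l, by linarith, hβ0, hl0, ?_, hαf, hβf⟩
  intro s hs
  have hsK : l s ∈ K := by
    rcases le_or_gt 0 s with h | h
    · exact hβK s ⟨h, hs.2⟩
    · have := hαK (-s) ⟨by linarith, by linarith [hs.1]⟩
      rwa [neg_neg] at this
  refine ⟨?_, hsK, hLl s⟩
  have := hl s
  rwa [hXK _ hsK] at this

end Pool.Agent.K9h63.HS
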