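import Pool.Agent.N224.Hil.All

/-! A closed orbit of a polynomial field encloses a zero (helper63, for project HS of helper44):
the angle form. -/

open Real Set MeasureTheory Topology Filter
open scoped ENNReal

namespace Pool.Agent.K9h63.HS

noncomputable section

open Pool.Agent.H709R2 (rot wedge field)
open Pool.Agent.H709U (rf Orb)
open Pool.Agent.N224.Hil

lemma ez_int {P Q : MvPolynomial (Fin 2) ℝ} {α : ℝ} {γ : ℝ → ℝ × ℝ} {T : ℝ}
    (h : Orb (rf (field P Q) α) γ T)
    (hno : ∀ p ∈ fill γ (fun t => rf (field P Q) α (γ t)) T, field P Q p ≠ 0) :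
    ∫ t in (0:ℝ)..T, ev (KK P Q α) (γ t) / ev (SQ P Q) (γ t) = 0 := by
  set K := fill γ (fun t => rf (field P Q) α (γ t)) T with hKdef
  have hK : IsCompact K := (allT0 _ _ _ (orb_loop h)).2
  have hγK : ∀ t, γ t ∈ K := fun t => Or.inl ⟨t, rfl⟩
  have hKne : K.Nonempty := ⟨γ 0, hγK 0⟩
  have hγc : Continuous γ := continuous_iff_continuousAt.2 fun t => (h.ode t).continuousAt
  obtain ⟨w₀, hw₀, hmin⟩ := hK.exists_isMinOn hKne (ev_continuous (SQ P Q)).continuousOn
  set m : ℝ := ev (SQ P Q) w₀ with hm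
  have hm0 : 0 < m := by
    rw [hm, ev_SQ]
    have h1 := hno w₀ hw₀
    unfold H709R2.sq
    by_contra hcon
    push Not at hcon
    have h2 : (field P Q w₀).1 = 0 := by nlinarith [sq_nonneg (field P Q w₀).1, sq_nonneg (field P Q w₀).2]
    have h3 : (field P Q w₀).2 = 0 := by nlinarith [sq_nonneg (field P Q w₀).1, sq_nonneg (field P Q w₀).2]
    exact h1 (Prod.ext h2 h3)
  have hmK : ∀ z ∈ K, m ≤ ev (SQ P Q) z := fun z hz => hmin hz
  obtain ⟨B, hB⟩ := hK.exists_bound_of_continuousOn (ev_continuous (KK P Q α)).continuousOn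
  obtain ⟨W, hW⟩ := hK.exists_bound_of_continuousOn (ev_continuous (WW P Q)).continuousOn
  have hB0 : 0 ≤ B := (norm_nonneg _).trans (hB _ (hγK 0))
  have hW0 : 0 ≤ W := (norm_nonneg _).trans (hW _ (hγK 0))
  set I := ∫ t in (0:ℝ)..T, ev (KK P Q α) (γ t) / ev (SQ P Q) (γ t) with hI
  set C : ℝ := 2 * W / m ^ 2 * volume.real K + B / m ^ 2 * T with hC
  have hT := h.pos
  have hC0 : 0 ≤ C := by positivity
  have key : ∀ δ : ℝ, 0 < δ → |I| ≤ δ ^ 2 * C := by
    intro δ hδ
    obtain ⟨e, he, hg⟩ := green_fill P Q allG allJ N224.Hil.n allT0 hδ h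
    have h1 := hg (fun _ => (1:ℝ)) contDiff_const
    have h2 : ∀ z, Ph P Q δ (fun _ => (1:ℝ)) z = cc P Q δ z := by
      intro z
      unfold Ph
      simp
    simp only [h2, one_mul] at h1
    have h3 : |∫ z in K, cc P Q δ z| ≤ δ ^ 2 * (2 * W / m ^ 2) * volume.real K := by
      have h4 := norm_setIntegral_le_of_norm_le_const (μ := volume) (s := K) (f := cc P Q δ)
        (C := δ ^ 2 * (2 * W / m ^ 2)) hK.measure_lt_top (fun z hz => by
          unfold cc
          have e1 : m ≤ sd P Q δ z := by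
            have := hmK z hz
            unfold sd
            nlinarith [sq_nonneg δ]
          have e2 : m ^ 2 ≤ sd P Q δ z ^ 2 := pow_le_pow_left₀ hm0.le e1 2
          have e3 := hW z hz
          rw [norm_div, norm_mul, norm_pow, Real.norm_of_nonneg (sd_pos P Q hδ z).le,
            Real.norm_of_nonneg (by positivity : 0 ≤ 2 * δ ^ 2)]
          calc 2 * δ ^ 2 * ‖ev (WW P Q) z‖ / sd P Q δ z ^ 2 ≤ 2 * δ ^ 2 * W / m ^ 2 := by gcongr
            _ = δ ^ 2 * (2 * W / m ^ 2) := by ring)
      rwa [Real.norm_eq_abs] at h4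
    have h4 : |∫ t in (0:ℝ)..T, ev (KK P Q α) (γ t) / sd P Q δ (γ t)| ≤
        δ ^ 2 * (2 * W / m ^ 2) * volume.real K := by
      rw [h1, abs_mul]
      rcases he with rfl | rfl <;> simpa using h3
    have hc1 : Continuous fun t => ev (KK P Q α) (γ t) / ev (SQ P Q) (γ t) :=
      ((ev_continuous _).comp hγc).div ((ev_continuous _).comp hγc)
        fun t => (hm0.trans_le (hmK _ (hγK t))).ne'
    have hc2 : Continuous fun t => ev (KK P Q α) (γ t) / sd P Q δ (γ t) :=
      ((ev_continuous _).comp hγc).div (((sd_contDiff P Q (m := 0)).continuous).comp hγc)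
        fun t => (sd_pos P Q hδ _).ne'
    have h5 : |I - ∫ t in (0:ℝ)..T, ev (KK P Q α) (γ t) / sd P Q δ (γ t)| ≤
        δ ^ 2 * (B / m ^ 2) * T := by
      rw [hI, ← intervalIntegral.integral_sub (hc1.intervalIntegrable _ _)
        (hc2.intervalIntegrable _ _)]
      have h6 := intervalIntegral.norm_integral_le_of_norm_le_const (a := (0:ℝ)) (b := T)
        (f := fun t => ev (KK P Q α) (γ t) / ev (SQ P Q) (γ t) -
          ev (KK P Q α) (γ t) / sd P Q δ (γ t)) (C := δ ^ 2 * (B / m ^ 2)) (fun t _ => by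
          have e0 := hmK _ (hγK t)
          have e1 : m ≤ sd P Q δ (γ t) := by
            unfold sd
            nlinarith [sq_nonneg δ]
          have e3 := hB _ (hγK t)
          have e4 : 0 < ev (SQ P Q) (γ t) := hm0.trans_le e0
          have e5 : 0 < sd P Q δ (γ t) := sd_pos P Q hδ _
          have e6 : ev (KK P Q α) (γ t) / ev (SQ P Q) (γ t) -
              ev (KK P Q α) (γ t) / sd P Q δ (γ t) =
              δ ^ 2 * (ev (KK P Q α) (γ t) / (ev (SQ P Q) (γ t) * sd P Q δ (γ t))) := by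
            have e7 : δ ^ 2 = sd P Q δ (γ t) - ev (SQ P Q) (γ t) := by unfold sd; ring
            rw [e7]
            field_simp
          rw [e6, norm_mul, norm_div, norm_mul, Real.norm_of_nonneg e4.le,
            Real.norm_of_nonneg e5.le, Real.norm_of_nonneg (sq_nonneg δ)]
          have e8 : m ^ 2 ≤ ev (SQ P Q) (γ t) * sd P Q δ (γ t) := by
            rw [pow_two]
            exact mul_le_mul e0 e1 hm0.le e4.le
          gcongr)
      rwa [Real.norm_eq_abs, sub_zero, abs_of_pos hT] at h6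
    calc |I| = |(I - ∫ t in (0:ℝ)..T, ev (KK P Q α) (γ t) / sd P Q δ (γ t)) +
          ∫ t in (0:ℝ)..T, ev (KK P Q α) (γ t) / sd P Q δ (γ t)| := by rw [sub_add_cancel]
      _ ≤ _ := abs_add_le _ _
      _ ≤ δ ^ 2 * (B / m ^ 2) * T + δ ^ 2 * (2 * W / m ^ 2) * volume.real K := add_le_add h5 h4
      _ = δ ^ 2 * C := by rw [hC]; ring
  by_contra hne
  have hpos : 0 < |I| := abs_pos.2 hne
  have h1 := key (√(|I| / (2 * (C + 1)))) (Real.sqrt_pos.2 (by positivity))
  rw [Real.sq_sqrt (by positivity)] at h1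
  have h2 : |I| / (2 * (C + 1)) * C < |I| := by
    rw [div_mul_eq_mul_div, div_lt_iff₀ (by positivity)]
    nlinarith
  linarith

/-- the derivative of the rotated field -/
lemma rf_fderiv {P Q : MvPolynomial (Fin 2) ℝ} {α : ℝ} (z v : ℝ × ℝ) :
    HasFDerivAt (rf (field P Q) α) (fderiv ℝ (rf (field P Q) α) z) z ∧
    wedge (rf (field P Q) α z) (fderiv ℝ (rf (field P Q) α) z v) =
      ev (NX P Q) z * v.1 + ev (NY P Q) z * v.2 := by
  have hX : ContDiff ℝ 1 (field P Q) := H709R2.contDiff_field P Q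
  have hX' := (hX.differentiable one_ne_zero z).hasFDerivAt
  -- rotation as a linear map
  set R : (ℝ × ℝ) →L[ℝ] (ℝ × ℝ) :=
    (cos α • ContinuousLinearMap.fst ℝ ℝ ℝ - sin α • ContinuousLinearMap.snd ℝ ℝ ℝ).prod
      (sin α • ContinuousLinearMap.fst ℝ ℝ ℝ + cos α • ContinuousLinearMap.snd ℝ ℝ ℝ) with hR
  have hRr : ∀ w, R w = rot α w := by
    intro w
    rw [hR]
    unfold H709R2.rot
    ext <;> simp
  have h1 : HasFDerivAt (rf (field P Q) α) (R.comp (fderiv ℝ (field P Q) z)) z := by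
    have h2 : HasFDerivAt (fun w => R (field P Q w)) (R.comp (fderiv ℝ (field P Q) z)) z :=
      R.hasFDerivAt.comp z hX'
    have h3 : (fun w => R (field P Q w)) = rf (field P Q) α := by
      funext w
      exact hRr _
    rwa [h3] at h2
  refine ⟨h1.differentiableAt.hasFDerivAt, ?_⟩
  rw [h1.fderiv, ContinuousLinearMap.comp_apply, hRr]
  have h4 : fderiv ℝ (field P Q) z v = v.1 • fderiv ℝ (field P Q) z (1, 0) +
      v.2 • fderiv ℝ (field P Q) z (0, 1) := by
    rw [← map_smul, ← map_smul, ← map_add]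
    congr 1
    ext <;> simp
  rw [ev_NX, ev_NY, h4]
  unfold H709U.rf H709R2.rot H709R2.wedge
  simp only [Prod.fst_add, Prod.snd_add, Prod.smul_fst, Prod.smul_snd, smul_eq_mul]
  have h5 := Real.sin_sq_add_cos_sq α
  linear_combination ((field P Q z).1 * (v.1 * (fderiv ℝ (field P Q) z (1, 0)).2 +
    v.2 * (fderiv ℝ (field P Q) z (0, 1)).2) - (field P Q z).2 *
    (v.1 * (fderiv ℝ (field P Q) z (1, 0)).1 + v.2 * (fderiv ℝ (field P Q) z (0, 1)).1)) * h5

theorem ez0 (P Q : MvPolynomial (Fin 2) ℝ) (α : ℝ) (γ : ℝ → ℝ × ℝ) (T : ℝ)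
    (h : Orb (rf (field P Q) α) γ T) :
    ∃ p, field P Q p = 0 ∧ p ∈ ins γ (fun t => rf (field P Q) α (γ t)) T := by
  by_contra hcon
  push Not at hcon
  have hrot0 : ∀ z, field P Q z = 0 → rf (field P Q) α z = 0 := by
    intro z hz
    unfold H709U.rf H709R2.rot
    rw [hz]
    simp
  have hno : ∀ p ∈ fill γ (fun t => rf (field P Q) α (γ t)) T, field P Q p ≠ 0 := by
    intro p hp h0
    rcases hp with ⟨t, rfl⟩ | hp
    · exact h.ne t (hrot0 _ h0)
    · exact hcon p h0 hp
  have hI := ez_int h hno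
  set Y := rf (field P Q) α with hY
  have hγc : Continuous γ := continuous_iff_continuousAt.2 fun t => (h.ode t).continuousAt
  have hL := orb_loop h
  have hYc : Continuous fun t => Y (γ t) := hL.cont
  -- the velocity in complex coordinates
  set Z : ℝ → ℂ := fun t => W.cx (Y (γ t)) with hZ
  set Z' : ℝ → ℂ := fun t => W.cx (fderiv ℝ Y (γ t) (Y (γ t))) with hZ'
  have hZ0 : ∀ t, Z t ≠ 0 := fun t => W.cx_ne (h.ne t)
  have hZc : Continuous Z := W.cx.continuous.comp hYc
  have hZd : ∀ t, HasDerivAt Z (Z' t) t := by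
    intro t
    have h1 := (rf_fderiv (P := P) (Q := Q) (α := α) (γ t) 0).1.comp_hasDerivAt t (h.ode t)
    exact W.cx.hasFDerivAt.comp_hasDerivAt t h1
  have hYC : ContDiff ℝ 1 Y := by
    have h1 : ContDiff ℝ 1 (field P Q) := H709R2.contDiff_field P Q
    have h2 : Y = fun z => (cos α * (field P Q z).1 - sin α * (field P Q z).2,
        sin α * (field P Q z).1 + cos α * (field P Q z).2) := by
      funext z
      rfl
    rw [h2]
    exact ((contDiff_const.mul h1.fst).sub (contDiff_const.mul h1.snd)).prodMk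
      ((contDiff_const.mul h1.fst).add (contDiff_const.mul h1.snd))
  have hZ'c : Continuous Z' := by
    refine W.cx.continuous.comp ?_
    exact ((hYC.continuous_fderiv one_ne_zero).comp hγc).clm_apply hYc
  have hqc : Continuous fun t => Z' t / Z t := hZ'c.div hZc hZ0
  -- the lift
  set L : ℝ → ℂ := fun t => Complex.log (Z 0) + ∫ s in (0:ℝ)..t, Z' s / Z s with hLdef
  have hLd : ∀ t, HasDerivAt L (Z' t / Z t) t := by
    intro t
    exact (hqc.integral_hasStrictDerivAt 0 t).hasDerivAt.const_add _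
  have hLc : Continuous L := continuous_iff_continuousAt.2 fun t => (hLd t).continuousAt
  have hexp : ∀ t, Complex.exp (L t) = Z t := by
    have hd : ∀ t, HasDerivAt (fun t => Z t * Complex.exp (-L t)) 0 t := by
      intro t
      have h1 := (hZd t).mul ((hLd t).neg.cexp)
      have e : Z' t * Complex.exp (-L t) + Z t * (Complex.exp (-L t) * -(Z' t / Z t)) = 0 := by
        have h2 : Z t * (Complex.exp (-L t) * -(Z' t / Z t)) =
            -(Complex.exp (-L t) * (Z' t / Z t * Z t)) := by ring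
        rw [h2, div_mul_cancel₀ _ (hZ0 t)]
        ring
      rw [← e]
      exact h1
    have hconst : ∀ t, Z t * Complex.exp (-L t) = Z 0 * Complex.exp (-L 0) := fun t =>
      is_const_of_deriv_eq_zero (fun s => (hd s).differentiableAt) (fun s => (hd s).deriv) t 0
    intro t
    have h1 := hconst t
    have h2 : Z 0 * Complex.exp (-L 0) = 1 := by
      have h3 : L 0 = Complex.log (Z 0) := by simp [hLdef]
      rw [h3, Complex.exp_neg, Complex.exp_log (hZ0 0), mul_inv_cancel₀ (hZ0 0)]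
    rw [h2, Complex.exp_neg] at h1
    have h4 := Complex.exp_ne_zero (L t)
    field_simp at h1
    exact h1.symm
  have hper : Z T = Z 0 := by
    have : γ T = γ 0 := by simpa using h.per 0
    simp only [hZ, this]
  -- the imaginary part of the increment
  have him : (L T - L 0).im = 0 := by
    have h1 : L T - L 0 = ∫ s in (0:ℝ)..T, Z' s / Z s := by simp [hLdef]
    rw [h1]
    have h2 : (∫ s in (0:ℝ)..T, Z' s / Z s).im = ∫ s in (0:ℝ)..T, (Z' s / Z s).im := by
      have := Complex.imCLM.intervalIntegral_comp_comm (hqc.intervalIntegrable (μ := volume) 0 T)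
      simpa using this.symm
    rw [h2, ← hI]
    congr 1
    funext t
    have h3 := W.integrand (Y (γ t)) (fderiv ℝ Y (γ t) (Y (γ t)))
    have h4 := (rf_fderiv (P := P) (Q := Q) (α := α) (γ t) (Y (γ t))).2
    have h5 : H709R2.sq (Y (γ t)) = ev (SQ P Q) (γ t) := by
      rw [ev_SQ]
      show H709R2.sq (rot α (field P Q (γ t))) = _
      unfold H709R2.sq H709R2.rot
      have h5 := Real.sin_sq_add_cos_sq α
      simp only
      linear_combination ((field P Q (γ t)).1 ^ 2 + (field P Q (γ t)).2 ^ 2) * h5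
    have h6 : ev (KK P Q α) (γ t) = ev (NX P Q) (γ t) * (Y (γ t)).1 + ev (NY P Q) (γ t) * (Y (γ t)).2 := by
      have e1 : (Y (γ t)).1 = cos α * ev P (γ t) - sin α * ev Q (γ t) := rfl
      have e2 : (Y (γ t)).2 = sin α * ev P (γ t) + cos α * ev Q (γ t) := rfl
      rw [e1, e2]
      unfold KK
      simp only [ev_add, ev_mul, ev_sub, ev_C]
    show (W.cx (fderiv ℝ Y (γ t) (Y (γ t))) / W.cx (Y (γ t))).im = _
    rw [← h3, h4, h5, h6]
  have hTT := H709U.t2 H709U.t1 (fun t => W.cx (γ t)) Z T h.pos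
    (fun t => W.cx.hasFDerivAt.comp_hasDerivAt t (h.ode t)) hZc
    (fun t => by simp only [h.per t]) hZ0 (fun s t hst => h.inj s t (by
      have h1 := congrArg Complex.re hst
      have h2 := congrArg Complex.im hst
      simp only [W.cx_re, W.cx_im] at h1 h2
      exact Prod.ext h1 h2)) L hLc hexp
  apply hTT
  obtain ⟨k, hk⟩ := Complex.exp_eq_exp_iff_exists_int.1 ((hexp T).trans (hper.trans (hexp 0).symm))
  rw [hk] at him
  have h1 : (k : ℝ) * (2 * π) = 0 := by
    simpa using him
  have h2 : (k : ℝ) = 0 := by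
    rcases mul_eq_zero.1 h1 with h | h
    · exact h
    · exact absurd h (by positivity)
  rw [hk]
  have h3 : k = 0 := by exact_mod_cast h2
  rw [h3]
  simp

end

end Pool.Agent.K9h63.HS
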