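import Pool.Agent.K9h63.HS.NetA

/-! Pairs of a point and a scale (helper63, for project HS of helper44). -/

open Real Set

namespace Pool.Agent.K9h63.HS

lemma count {S : Finset (ℝ × ℝ)} {ρ : ℝ × ℝ → ℝ}
    (hsep : ∀ x ∈ S, ∀ y ∈ S, x ≠ y → min (ρ x) (ρ y) ≤ dd x y) (x : ℝ × ℝ) (hx : 0 < ρ x) :
    (S.filter (fun y => ρ x ≤ 10 * ρ y ∧ dd y x ≤ 10 * ρ x)).card ≤ 90601 := by
  classical
  set c : ℝ := ρ x with hc
  have hbox : ((Finset.Icc (-150 : ℤ) 150) ×ˢ (Finset.Icc (-150 : ℤ) 150)).card = 90601 := by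
    have e : (150 + 1 - (-150) : ℤ).toNat = 301 := rfl
    rw [Finset.card_product, Int.card_Icc, e]
  rw [← hbox]
  have hfl : ∀ u v : ℝ, |u - v| ≤ 10 * c → ⌊(u - v) * (15 / c)⌋ ∈ Finset.Icc (-150 : ℤ) 150 := by
    intro u v h
    have h1 := abs_le.1 h
    have e : 10 * c * (15 / c) = 150 := by field_simp; norm_num
    rw [Finset.mem_Icc]
    constructor
    · rw [Int.le_floor]
      push_cast
      have : -(10 * c) * (15 / c) ≤ (u - v) * (15 / c) :=
        mul_le_mul_of_nonneg_right h1.1 (by positivity)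
      linarith
    · have : (u - v) * (15 / c) ≤ 10 * c * (15 / c) :=
        mul_le_mul_of_nonneg_right h1.2 (by positivity)
      have h2 : (u - v) * (15 / c) < ((150 : ℤ) : ℝ) + 1 := by push_cast; linarith
      have := Int.floor_lt.2 (show (u - v) * (15 / c) < ((151 : ℤ) : ℝ) by push_cast at h2 ⊢; linarith)
      omega
  refine Finset.card_le_card_of_injOn
    (fun y => (⌊(y.1 - x.1) * (15 / c)⌋, ⌊(y.2 - x.2) * (15 / c)⌋)) ?_ ?_
  · intro y hy
    rw [Finset.mem_coe, Finset.mem_filter] at hy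
    rw [Finset.mem_coe, Finset.mem_product]
    exact ⟨hfl _ _ ((dd_fst y x).trans hy.2.2), hfl _ _ ((dd_snd y x).trans hy.2.2)⟩
  · intro y hy z hz hyz
    rw [Finset.mem_coe, Finset.mem_filter] at hy hz
    by_contra hne
    have h1 := hsep y hy.1 z hz.1 hne
    have h2 : c / 10 ≤ min (ρ y) (ρ z) := le_min (by linarith [hy.2.1]) (by linarith [hz.2.1])
    rw [Prod.mk.injEq] at hyz
    have key : ∀ u v w : ℝ, ⌊(u - w) * (15 / c)⌋ = ⌊(v - w) * (15 / c)⌋ → |u - v| ≤ c / 15 := by
      intro u v w h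
      have h3 := Int.abs_sub_lt_one_of_floor_eq_floor h
      have e : (u - w) * (15 / c) - (v - w) * (15 / c) = (u - v) * (15 / c) := by ring
      rw [e, abs_mul, abs_of_pos (show (0:ℝ) < 15 / c by positivity)] at h3
      have h4 : |u - v| * (15 / c) * (c / 15) ≤ 1 * (c / 15) :=
        mul_le_mul_of_nonneg_right h3.le (by positivity)
      have e2 : |u - v| * (15 / c) * (c / 15) = |u - v| := by field_simp
      rw [e2] at h4
      linarith
    have h3 := dd_le (key _ _ _ hyz.1) (key _ _ _ hyz.2)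
    have h4 : √2 < 3 / 2 := by
      rw [Real.sqrt_lt' (by norm_num)]
      norm_num
    have h5 : √2 * (c / 15) < 3 / 2 * (c / 15) := mul_lt_mul_of_pos_right h4 (by positivity)
    linarith

theorem net0 (S : Finset (ℝ × ℝ)) : ∃ N : Finset ((ℝ × ℝ) × ℝ), N.card ≤ 100000 * S.card ∧
    (∀ q ∈ N, q.1 ∈ S) ∧ ∀ p ∈ S, ∀ s ∈ S, p ≠ s →
      ∃ q ∈ N, dd q.1 p ≤ dd s p / 8 ∧ |q.2 - Real.log (dd s p)| ≤ Real.log 8 := by
  classical
  rcases S.eq_empty_or_nonempty with rfl | hS
  · exact ⟨∅, by simp, by simp, by simp⟩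
  obtain ⟨ρ, hpos, hsep, hnet⟩ := traversal S hS
  refine ⟨S.biUnion (fun x => (S.filter (fun y => ρ x ≤ 10 * ρ y ∧ dd y x ≤ 10 * ρ x)).image
    (fun y => (y, Real.log (ρ x)))), ?_, ?_, ?_⟩
  · refine Finset.card_biUnion_le.trans ?_
    calc ∑ x ∈ S, ((S.filter (fun y => ρ x ≤ 10 * ρ y ∧ dd y x ≤ 10 * ρ x)).image
          (fun y => (y, Real.log (ρ x)))).card ≤ ∑ _x ∈ S, 100000 := by
          refine Finset.sum_le_sum fun x hx => ?_
          exact Finset.card_image_le.trans ((count hsep x (hpos x hx)).trans (by norm_num))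
      _ = 100000 * S.card := by rw [Finset.sum_const, smul_eq_mul, mul_comm]
  · intro q hq
    rw [Finset.mem_biUnion] at hq
    obtain ⟨x, hx, hq⟩ := hq
    rw [Finset.mem_image] at hq
    obtain ⟨y, hy, rfl⟩ := hq
    exact (Finset.mem_filter.1 hy).1
  · intro p hp s hs hps
    have hD : 0 < dd s p := dd_pos hps.symm
    set D := dd s p with hDdef
    obtain ⟨p', hp', hρp, hp1⟩ := hnet p hp s hs (D / 8) (by positivity)
      (by rw [dd_comm]; linarith)
    obtain ⟨s', hs', hρs, hs1⟩ := hnet s hs p hp (D / 8) (by positivity) (by linarith)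
    -- the distance of the two net points
    have u1 : dd p' s' ≤ 5 / 4 * D := by
      have a1 := dd_tri p' p s'
      have a2 := dd_tri p s s'
      have a3 : dd p s = D := dd_comm _ _
      have a4 : dd s s' = dd s' s := dd_comm _ _
      linarith
    have u2 : 3 / 4 * D ≤ dd p' s' := by
      have a1 := dd_tri p p' s
      have a2 := dd_tri p' s' s
      have a3 : dd p s = D := dd_comm _ _
      have a4 : dd p p' = dd p' p := dd_comm _ _
      linarith
    have hne : p' ≠ s' := by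
      intro h
      rw [h, dd_self] at u2
      linarith
    have hmin := hsep p' hp' s' hs' hne
    -- one of the two is the scale
    obtain ⟨x, hx, hx1, hx2, hx3⟩ : ∃ x ∈ S, D / 8 ≤ ρ x ∧ ρ x ≤ 5 / 4 * D ∧ dd p' x ≤ 5 / 4 * D := by
      rcases min_le_iff.1 hmin with h | h
      · exact ⟨p', hp', hρp, h.trans u1, by rw [dd_self]; positivity⟩
      · exact ⟨s', hs', hρs, h.trans u1, u1⟩
    refine ⟨(p', Real.log (ρ x)), ?_, hp1, ?_⟩
    · rw [Finset.mem_biUnion]
      refine ⟨x, hx, ?_⟩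
      rw [Finset.mem_image]
      refine ⟨p', ?_, rfl⟩
      rw [Finset.mem_filter]
      exact ⟨hp', by linarith, by linarith⟩
    · have hx0 := hpos x hx
      rw [← Real.log_div hx0.ne' hD.ne', abs_le, ← Real.log_inv]
      constructor
      · apply Real.log_le_log (by norm_num)
        rw [le_div_iff₀ hD]
        linarith
      · apply Real.log_le_log (by positivity)
        rw [div_le_iff₀ hD]
        linarith

end Pool.Agent.K9h63.HS
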