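import Pool.Agent.N224.Hil.All

/-! Reparametrisation of a path of closed orbits (helper63, for project HS of helper44). -/

open Real Set MeasureTheory Topology Filter
open scoped ENNReal

namespace Pool.Agent.K9h63.HS

noncomputable section

open Pool.Agent.H709R2 (rot wedge field ClosedOrbit)
open Pool.Agent.H709U (rf Orb)
open Pool.Agent.W960.HP (PersG)

/-- inverses of a continuous family of increasing bijections of the line -/
lemma fam_inv (S : ℝ × ℝ → ℝ) (hS : Continuous S) (hm : ∀ x, StrictMono fun t => S (x, t))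
    (hs : ∀ x, Function.Surjective fun t => S (x, t)) :
    ∃ Θ : ℝ × ℝ → ℝ, Continuous Θ ∧ (∀ q, S (q.1, Θ q) = q.2) := by
  choose Θ' hΘ' using fun x s => hs x s
  simp only at hΘ'
  refine ⟨fun q => Θ' q.1 q.2, ?_, fun q => hΘ' q.1 q.2⟩
  rw [continuous_iff_continuousAt]
  intro q₀
  refine tendsto_order.2 ⟨fun b hb => ?_, fun b hb => ?_⟩
  · have h1 : S (q₀.1, b) < q₀.2 := by
      have := hm q₀.1 hb
      simp only [hΘ'] at this
      exact this
    have h2 : Continuous fun q : ℝ × ℝ => S (q.1, b) := hS.comp (by fun_prop)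
    filter_upwards [(isOpen_lt h2 continuous_snd).mem_nhds h1] with q hq
    by_contra hcon
    push Not at hcon
    have := (hm q.1).monotone hcon
    simp only [hΘ'] at this
    exact absurd hq (not_lt.2 this)
  · have h1 : q₀.2 < S (q₀.1, b) := by
      have := hm q₀.1 hb
      simp only [hΘ'] at this
      exact this
    have h2 : Continuous fun q : ℝ × ℝ => S (q.1, b) := hS.comp (by fun_prop)
    filter_upwards [(isOpen_lt continuous_snd h2).mem_nhds h1] with q hq
    by_contra hcon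
    push Not at hcon
    have := (hm q.1).monotone hcon
    simp only [hΘ'] at this
    exact absurd hq (not_lt.2 this)

/-- projection to the unit interval -/
def pr (x : ℝ) : ℝ := max 0 (min x 1)

lemma pr_mem (x : ℝ) : pr x ∈ Icc (0:ℝ) 1 :=
  ⟨le_max_left _ _, max_le zero_le_one (min_le_right _ _)⟩

lemma pr_of {x : ℝ} (hx : x ∈ Icc (0:ℝ) 1) : pr x = x := by
  unfold pr
  rw [min_eq_left hx.2, max_eq_right hx.1]

lemma pr_cont : Continuous pr := by
  unfold pr
  fun_prop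

/-- change of time along a family of curves -/
lemma time_fam (K : ℝ × ℝ → ℝ) (hKc : Continuous K) (hK : ∀ q, 0 < K q) (T : ℝ → ℝ)
    (hT : ContinuousOn T (Icc 0 1)) (hTpos : ∀ x, 0 < T x) (hper : ∀ x t, K (x, t + T x) = K (x, t)) :
    ∃ (Θ : ℝ × ℝ → ℝ) (R : ℝ → ℝ), Continuous Θ ∧ ContinuousOn R (Icc 0 1) ∧ (∀ x, 0 < R x) ∧
      (∀ x s, HasDerivAt (fun s => Θ (x, s)) (K (x, Θ (x, s)))⁻¹ s) ∧
      (∀ x s, Θ (x, s + R x) = Θ (x, s) + T x) ∧ ∀ x, Function.Surjective fun s => Θ (x, s) := by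
  have hKx : ∀ x, Continuous fun t => K (x, t) := fun x => hKc.comp (by fun_prop)
  have hKper : ∀ x, Function.Periodic (fun t => K (x, t)) (T x) := fun x t => hper x t
  set S : ℝ × ℝ → ℝ := fun q => ∫ u in (0:ℝ)..q.2, K (q.1, u) with hS
  have hSc : Continuous S := by
    have h1 : Continuous (Function.uncurry fun (q : ℝ × ℝ) (u : ℝ) => K (q.1, u)) :=
      hKc.comp (by fun_prop : Continuous fun r : (ℝ × ℝ) × ℝ => (r.1.1, r.2))
    exact intervalIntegral.continuous_parametric_intervalIntegral_of_continuous h1 continuous_snd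
  have hSd : ∀ x t, HasDerivAt (fun t => S (x, t)) (K (x, t)) t := fun x t =>
    ((hKx x).integral_hasStrictDerivAt 0 t).hasDerivAt
  have hSm : ∀ x, StrictMono fun t => S (x, t) := fun x => strictMono_of_deriv_pos fun t => by
    rw [(hSd x t).deriv]
    exact hK _
  have hSs : ∀ x, Function.Surjective fun t => S (x, t) := fun x =>
    (continuous_iff_continuousAt.2 fun t => (hSd x t).continuousAt).surjective
      ((hKper x).tendsto_atTop_intervalIntegral_of_pos' ((hKx x).intervalIntegrable _ _)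
        (fun t => hK _) (hTpos x))
      ((hKper x).tendsto_atBot_intervalIntegral_of_pos' ((hKx x).intervalIntegrable _ _)
        (fun t => hK _) (hTpos x))
  obtain ⟨Θ, hΘc, hΘ₀⟩ := fam_inv S hSc hSm hSs
  have hΘ : ∀ x s, S (x, Θ (x, s)) = s := fun x s => hΘ₀ (x, s)
  have hadd : ∀ x t, S (x, t + T x) = S (x, t) + S (x, T x) := by
    intro x t
    have h1 := (hKper x).intervalIntegral_add_eq_add 0 t
      (fun a b => (hKx x).intervalIntegrable (μ := volume) a b)
    simp only [zero_add] at h1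
    exact h1
  have hS0 : ∀ x, S (x, 0) = 0 := fun x => by simp [hS]
  refine ⟨Θ, fun x => S (x, T x), hΘc, ?_, ?_, ?_, ?_, ?_⟩
  · exact hSc.comp_continuousOn (continuousOn_id.prodMk hT)
  · intro x
    show 0 < S (x, T x)
    rw [← hS0 x]
    exact hSm x (hTpos x)
  · intro x s
    have h1 : Continuous fun s => Θ (x, s) := hΘc.comp (by fun_prop)
    exact HasDerivAt.of_local_left_inverse h1.continuousAt (hSd x (Θ (x, s)))
      (hK _).ne' (Filter.Eventually.of_forall fun s => hΘ x s)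
  · intro x s
    apply (hSm x).injective
    simp only
    rw [hΘ, hadd, hΘ]
  · intro x t
    exact ⟨S (x, t), (hSm x).injective (by simp only; rw [hΘ])⟩

/-- the value of the rotated field -/
lemma rf_mul (h P₁ Q₁ : MvPolynomial (Fin 2) ℝ) (α : ℝ) (z : ℝ × ℝ) :
    rf (field (h * P₁) (h * Q₁)) α z = (MvPolynomial.eval ![z.1, z.2] h) • rf (field P₁ Q₁) α z := by
  show rot α (field (h * P₁) (h * Q₁) z) = _
  rw [H709U.B2.field_mul, H709U.B2.rot_smul]
  rfl

/-- the factor does not vanish on closed orbits -/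
lemma factor_ne (h P₁ Q₁ : MvPolynomial (Fin 2) ℝ) (α : ℝ) {C : Set (ℝ × ℝ)}
    (hco : ClosedOrbit (rf (field (h * P₁) (h * Q₁)) α) C) {z : ℝ × ℝ} (hz : z ∈ C) :
    MvPolynomial.eval ![z.1, z.2] h ≠ 0 := by
  intro h0
  obtain ⟨δ, S, hO, hr⟩ := H709U.m0 _ (H709R2.contDiff_field _ _) α _ hco
  rw [hr] at hz
  obtain ⟨s, hs⟩ := hz
  apply hO.ne s
  rw [rf_mul, hs, h0, zero_smul]

/-- one curve -/
lemma one_curve {X Y : ℝ × ℝ → ℝ × ℝ} {k : ℝ × ℝ → ℝ} (hXY : ∀ z, X z = k z • Y z) {ε : ℝ}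
    (hε : ε = 1 ∨ ε = -1) {c : ℝ → ℝ × ℝ} {T R : ℝ} {θ : ℝ → ℝ}
    (hk : ∀ t, 0 < ε * k (c t)) (hc : ∀ t, HasDerivAt c (X (c t)) t) (hper : ∀ t, c (t + T) = c t)
    (hθ : ∀ s, HasDerivAt θ (ε * k (c (θ s)))⁻¹ s) (hθp : ∀ s, θ (s + R) = θ s + T) :
    (∀ u, HasDerivAt (fun u => c (θ (ε * u))) (Y (c (θ (ε * u)))) u) ∧
    ∀ u, c (θ (ε * (u + R))) = c (θ (ε * u)) := by
  constructor
  · intro u
    have g1 : HasDerivAt (fun u : ℝ => ε * u) ε u := by
      simpa using (hasDerivAt_id u).const_mul ε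
    have g2 : HasDerivAt (fun u => θ (ε * u)) ((ε * k (c (θ (ε * u))))⁻¹ * ε) u :=
      (hθ (ε * u)).comp u g1
    have g3 := (hc (θ (ε * u))).scomp u g2
    rw [hXY, smul_smul] at g3
    have g4 : (ε * k (c (θ (ε * u))))⁻¹ * ε * k (c (θ (ε * u))) = 1 := by
      have g6 := (hk (θ (ε * u))).ne'
      rw [mul_assoc, inv_mul_cancel₀ g6]
    rw [g4, one_smul] at g3
    exact g3
  · intro u
    rcases hε with h | h
    · rw [h, one_mul, one_mul, hθp, hper]
    · have g1 := hθp (-1 * u - R)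
      rw [sub_add_cancel] at g1
      rw [h, show (-1 : ℝ) * (u + R) = -1 * u - R by ring, g1, hper]

theorem rp0 (h P₁ Q₁ : MvPolynomial (Fin 2) ℝ) (η : ℝ) (C : Set (ℝ × ℝ))
    (hC : PersG (field (h * P₁) (h * Q₁)) (fun _ _ => True) η C) :
    PersG (field P₁ Q₁) (fun _ _ => True) η C := by
  obtain ⟨a, γ, T, ha, ha0, ha1, ham, hγ, hT, hall, hinj, hCr⟩ := hC
  -- the factor along the path, extended to all parameters
  set k₁ : ℝ × ℝ → ℝ := fun z => MvPolynomial.eval ![z.1, z.2] h with hk₁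
  have hk₁c : Continuous k₁ := (H709R2.contDiff_evalPoly (m := 2) h).continuous
  have hγpr : Continuous fun q : ℝ × ℝ => γ (pr q.1) q.2 := by
    have h1 : Continuous fun q : ℝ × ℝ => (pr q.1, q.2) :=
      (pr_cont.comp continuous_fst).prodMk continuous_snd
    exact hγ.comp_continuous h1 (fun q => ⟨pr_mem _, mem_univ _⟩)
  set k₀ : ℝ × ℝ → ℝ := fun q => k₁ (γ (pr q.1) q.2) with hk₀
  have hk₀c : Continuous k₀ := hk₁c.comp hγpr
  have hk₀0 : ∀ q, k₀ q ≠ 0 := by
    intro q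
    obtain ⟨h1, h2, h3, h4, -⟩ := hall _ (pr_mem q.1)
    exact factor_ne h P₁ Q₁ (a (pr q.1)) ⟨γ (pr q.1), T (pr q.1), h1, h2, h3, h4, rfl⟩
      (mem_range_self q.2)
  obtain ⟨ε, hε, hεk⟩ : ∃ ε : ℝ, (ε = 1 ∨ ε = -1) ∧ ∀ q, 0 < ε * k₀ q := by
    by_cases hs : ∀ q, 0 < k₀ q
    · exact ⟨1, Or.inl rfl, fun t => by rw [one_mul]; exact hs t⟩
    · refine ⟨-1, Or.inr rfl, fun t => ?_⟩
      push Not at hs
      obtain ⟨s, hs⟩ := hs
      by_contra hcon
      have h1 : 0 ≤ k₀ t := by linarith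
      obtain ⟨u, hu⟩ := mem_range_of_exists_le_of_exists_ge hk₀c ⟨s, hs⟩ ⟨t, h1⟩
      exact hk₀0 u hu
  have hε2 : ε * ε = 1 := by rcases hε with h | h <;> rw [h] <;> norm_num
  obtain ⟨Θ, R, hΘc, hRc, hRpos, hΘd, hΘp, hΘs⟩ := time_fam (fun q => ε * k₀ q)
    (continuous_const.mul hk₀c) hεk (fun x => T (pr x))
    (hT.comp pr_cont.continuousOn (fun x _ => pr_mem x)) (fun x => (hall _ (pr_mem x)).1)
    (fun x t => by
      have h1 := (hall _ (pr_mem x)).2.2.1 t
      simp only [hk₀, h1])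
  have hes : Function.Surjective (fun u : ℝ => ε * u) := fun v =>
    ⟨ε * v, by simp only; rw [← mul_assoc, hε2, one_mul]⟩
  have hrange : ∀ x, range (fun u => γ x (Θ (x, ε * u))) = range (γ x) := by
    intro x
    exact ((hΘs x).comp hes).range_comp (γ x)
  have hone : ∀ τ ∈ Icc (0:ℝ) 1,
      (∀ u, HasDerivAt (fun u => γ τ (Θ (τ, ε * u))) (rf (field P₁ Q₁) (a τ) (γ τ (Θ (τ, ε * u)))) u) ∧
      ∀ u, γ τ (Θ (τ, ε * (u + R τ))) = γ τ (Θ (τ, ε * u)) := by
    intro τ hτ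
    obtain ⟨h1, h2, h3, -, -⟩ := hall τ hτ
    have hpτ : pr τ = τ := pr_of hτ
    refine one_curve (k := k₁) (rf_mul h P₁ Q₁ (a τ)) hε (T := T τ) (θ := fun s => Θ (τ, s))
      ?_ h2 h3 ?_ ?_
    · intro t
      have := hεk (τ, t)
      simp only [hk₀, hpτ] at this
      exact this
    · intro s
      have := hΘd τ s
      simp only [hk₀, hpτ] at this
      exact this
    · intro s
      have := hΘp τ s
      rw [hpτ] at this
      exact this
  refine ⟨a, fun x u => γ x (Θ (x, ε * u)), R, ha, ha0, ha1, ham, ?_, hRc, ?_, ?_, ?_⟩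
  · have h1 : Continuous fun q : ℝ × ℝ => (q.1, Θ (q.1, ε * q.2)) :=
      continuous_fst.prodMk (hΘc.comp (by fun_prop))
    exact hγ.comp h1.continuousOn (fun q hq => ⟨hq.1, mem_univ _⟩)
  · intro τ hτ
    obtain ⟨-, -, -, ⟨s, t, h4⟩, -⟩ := hall τ hτ
    refine ⟨hRpos τ, (hone τ hτ).1, (hone τ hτ).2, ?_, trivial⟩
    have g1 : γ τ s ∈ range (fun u => γ τ (Θ (τ, ε * u))) := by
      rw [hrange]; exact mem_range_self s
    have g2 : γ τ t ∈ range (fun u => γ τ (Θ (τ, ε * u))) := by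
      rw [hrange]; exact mem_range_self t
    obtain ⟨s', hs'⟩ := g1
    obtain ⟨t', ht'⟩ := g2
    exact ⟨s', t', by simp only at hs' ht' ⊢; rw [hs', ht']; exact h4⟩
  · intro τ hτ τ' hτ' hr
    simp only [hrange] at hr
    exact hinj τ hτ τ' hτ' hr
  · simp only [hrange]
    exact hCr

end

end Pool.Agent.K9h63.HS
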