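import Mathlib

/-! Farthest-first traversal of a finite set of points of the plane (helper63, for project HS of
helper44). -/

open Real Set

namespace Pool.Agent.K9h63.HS

/-- Euclidean distance -/
noncomputable def dd (x y : ℝ × ℝ) : ℝ := √((x.1 - y.1) ^ 2 + (x.2 - y.2) ^ 2)

lemma dd_eq (x y : ℝ × ℝ) : dd x y = ‖(⟨x.1, x.2⟩ : ℂ) - ⟨y.1, y.2⟩‖ := by
  rw [Complex.norm_def, Complex.normSq_apply]
  unfold dd
  congr 1
  simp only [Complex.sub_re, Complex.sub_im]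
  ring

lemma dd_comm (x y : ℝ × ℝ) : dd x y = dd y x := by
  rw [dd_eq, dd_eq, norm_sub_rev]

lemma dd_nonneg (x y : ℝ × ℝ) : 0 ≤ dd x y := Real.sqrt_nonneg _

lemma dd_tri (x y z : ℝ × ℝ) : dd x z ≤ dd x y + dd y z := by
  rw [dd_eq, dd_eq, dd_eq]
  exact norm_sub_le_norm_sub_add_norm_sub _ _ _

lemma dd_self (x : ℝ × ℝ) : dd x x = 0 := by
  rw [dd_eq]; simp

lemma dd_pos {x y : ℝ × ℝ} (h : x ≠ y) : 0 < dd x y := by
  rw [dd_eq, norm_pos_iff, sub_ne_zero]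
  intro h'
  apply h
  rw [Complex.ext_iff] at h'
  exact Prod.ext h'.1 h'.2

lemma dd_fst (x y : ℝ × ℝ) : |x.1 - y.1| ≤ dd x y := by
  have := Complex.abs_re_le_norm ((⟨x.1, x.2⟩ : ℂ) - ⟨y.1, y.2⟩)
  rw [dd_eq]
  simpa using this

lemma dd_snd (x y : ℝ × ℝ) : |x.2 - y.2| ≤ dd x y := by
  have := Complex.abs_im_le_norm ((⟨x.1, x.2⟩ : ℂ) - ⟨y.1, y.2⟩)
  rw [dd_eq]
  simpa using this

lemma dd_le {x y : ℝ × ℝ} {a : ℝ} (h1 : |x.1 - y.1| ≤ a) (h2 : |x.2 - y.2| ≤ a) :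
    dd x y ≤ √2 * a := by
  have ha : 0 ≤ a := (abs_nonneg _).trans h1
  unfold dd
  rw [Real.sqrt_le_left (by positivity), mul_pow, Real.sq_sqrt (by norm_num)]
  have e1 : (x.1 - y.1) ^ 2 ≤ a ^ 2 := sq_le_sq' (by linarith [abs_le.1 h1]) (abs_le.1 h1).2
  have e2 : (x.2 - y.2) ^ 2 ≤ a ^ 2 := sq_le_sq' (by linarith [abs_le.1 h2]) (abs_le.1 h2).2
  linarith

/-- the invariant of the farthest-first traversal -/
structure Inv (S : Finset (ℝ × ℝ)) (R : ℝ) (T : Finset (ℝ × ℝ)) (ρ : ℝ × ℝ → ℝ) (m : ℝ) : Prop where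
  sub : T ⊆ S
  low : ∀ x ∈ T, m ≤ ρ x
  cov : ∀ p ∈ S, ∃ y ∈ T, dd y p ≤ m
  sep : ∀ x ∈ T, ∀ y ∈ T, x ≠ y → min (ρ x) (ρ y) ≤ dd x y
  net : ∀ p ∈ S, ∀ t, m ≤ t → t ≤ R → ∃ y ∈ T, t ≤ ρ y ∧ dd y p ≤ t

lemma step {S T : Finset (ℝ × ℝ)} {R m : ℝ} {ρ : ℝ × ℝ → ℝ} (h : Inv S R T ρ m) (hTS : T ≠ S) :
    ∃ (x : ℝ × ℝ) (ρ' : ℝ × ℝ → ℝ) (m' : ℝ), x ∈ S ∧ x ∉ T ∧ 0 < ρ' x ∧ Inv S R (insert x T) ρ' m' ∧
      (∀ y ∈ T, ρ' y = ρ y) := by
  classical
  have hTne : T.Nonempty := by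
    obtain ⟨p, hp⟩ : (S \ T).Nonempty := by
      rw [Finset.sdiff_nonempty]
      exact fun h' => hTS (Finset.Subset.antisymm h.sub h')
    obtain ⟨y, hy, _⟩ := h.cov p (Finset.mem_sdiff.1 hp).1
    exact ⟨y, hy⟩
  -- distance to T
  set f : ℝ × ℝ → ℝ := fun p => T.inf' hTne (fun y => dd y p) with hf
  have hSne : S.Nonempty := hTne.mono h.sub
  obtain ⟨x, hxS, hx⟩ := Finset.exists_max_image S f hSne
  have hfx : ∀ p ∈ S, ∃ y ∈ T, dd y p ≤ f x := by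
    intro p hp
    obtain ⟨y, hy, hyp⟩ := Finset.exists_mem_eq_inf' hTne (fun y => dd y p)
    exact ⟨y, hy, by rw [← hyp]; exact hx p hp⟩
  have hlow : ∀ y ∈ T, f x ≤ dd y x := fun y hy => Finset.inf'_le _ hy
  have hpos : 0 < f x := by
    obtain ⟨p, hp⟩ : (S \ T).Nonempty := by
      rw [Finset.sdiff_nonempty]
      exact fun h' => hTS (Finset.Subset.antisymm h.sub h')
    rw [Finset.mem_sdiff] at hp
    refine lt_of_lt_of_le ?_ (hx p hp.1)
    rw [hf]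
    simp only
    rw [Finset.lt_inf'_iff]
    intro y hy
    exact dd_pos (fun h' => hp.2 (h' ▸ hy))
  have hxT : x ∉ T := by
    intro hx'
    have := hlow x hx'
    rw [dd_self] at this
    linarith
  have hfm : f x ≤ m := by
    obtain ⟨y, hy, hyx⟩ := h.cov x hxS
    exact (hlow y hy).trans hyx
  set ρ' : ℝ × ℝ → ℝ := Function.update ρ x (f x) with hρ'
  have hρx : ρ' x = f x := by rw [hρ', Function.update_self]
  have hρy : ∀ y ∈ T, ρ' y = ρ y := by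
    intro y hy
    rw [hρ', Function.update_of_ne]
    exact fun h' => hxT (h' ▸ hy)
  -- the new covering radius
  set T' := insert x T with hT'
  have hT'ne : T'.Nonempty := ⟨x, Finset.mem_insert_self _ _⟩
  set g : ℝ × ℝ → ℝ := fun p => T'.inf' hT'ne (fun y => dd y p) with hg
  obtain ⟨z, hzS, hz⟩ := Finset.exists_max_image S g hSne
  have hgf : g z ≤ f x := by
    obtain ⟨y, hy, hyz⟩ := hfx z hzS
    exact (Finset.inf'_le _ (Finset.mem_insert_of_mem hy)).trans hyz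
  have hgz : ∀ p ∈ S, ∃ y ∈ T', dd y p ≤ g z := by
    intro p hp
    obtain ⟨y, hy, hyp⟩ := Finset.exists_mem_eq_inf' hT'ne (fun y => dd y p)
    exact ⟨y, hy, by rw [← hyp]; exact hz p hp⟩
  refine ⟨x, ρ', g z, hxS, hxT, by rw [hρx]; exact hpos, ⟨?_, ?_, hgz, ?_, ?_⟩, hρy⟩
  · exact Finset.insert_subset hxS h.sub
  · intro y hy
    rcases Finset.mem_insert.1 hy with rfl | hy
    · rw [hρx]; exact hgf
    · rw [hρy y hy]; exact (hgf.trans hfm).trans (h.low y hy)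
  · intro a ha b hb hab
    rcases Finset.mem_insert.1 ha with hax | haT
    · rcases Finset.mem_insert.1 hb with hbx | hbT
      · exact absurd (hax.trans hbx.symm) hab
      · refine (min_le_left _ _).trans ?_
        rw [hax, hρx, dd_comm]; exact hlow b hbT
    · rcases Finset.mem_insert.1 hb with hbx | hbT
      · refine (min_le_right _ _).trans ?_
        rw [hbx, hρx]; exact hlow a haT
      · rw [hρy a haT, hρy b hbT]; exact h.sep a haT b hbT hab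
  · intro p hp t ht htR
    rcases le_or_gt m t with hmt | hmt
    · obtain ⟨y, hy, h1, h2⟩ := h.net p hp t hmt htR
      exact ⟨y, Finset.mem_insert_of_mem hy, by rw [hρy y hy]; exact h1, h2⟩
    · rcases le_or_gt (f x) t with hft | hft
      · obtain ⟨y, hy, h1⟩ := hfx p hp
        exact ⟨y, Finset.mem_insert_of_mem hy, by rw [hρy y hy]; exact hmt.le.trans (h.low y hy),
          h1.trans hft⟩
      · obtain ⟨y, hy, h1⟩ := hgz p hp
        refine ⟨y, hy, ?_, h1.trans ht⟩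
        rcases Finset.mem_insert.1 hy with rfl | hy
        · rw [hρx]; exact hft.le
        · rw [hρy y hy]; exact hmt.le.trans (h.low y hy)

lemma full {S : Finset (ℝ × ℝ)} (R : ℝ) : ∀ (n : ℕ) (T : Finset (ℝ × ℝ)) (ρ : ℝ × ℝ → ℝ) (m : ℝ),
    (S \ T).card = n → Inv S R T ρ m → (∀ x ∈ T, 0 < ρ x) →
    ∃ (ρ' : ℝ × ℝ → ℝ) (m' : ℝ), Inv S R S ρ' m' ∧ ∀ x ∈ S, 0 < ρ' x := by
  classical
  intro n
  induction n with
  | zero =>
    intro T ρ m hn h hpos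
    have : T = S := by
      rw [Finset.card_eq_zero, Finset.sdiff_eq_empty_iff_subset] at hn
      exact Finset.Subset.antisymm h.sub hn
    subst this
    exact ⟨ρ, m, h, hpos⟩
  | succ n ih =>
    intro T ρ m hn h hpos
    have hTS : T ≠ S := by
      rintro rfl
      simp at hn
    obtain ⟨x, ρ', m', hxS, hxT, hx0, h', hρ⟩ := step h hTS
    refine ih (insert x T) ρ' m' ?_ h' ?_
    · have e1 : S \ insert x T = (S \ T).erase x := by
        ext y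
        simp only [Finset.mem_sdiff, Finset.mem_insert, Finset.mem_erase]
        tauto
      rw [e1, Finset.card_erase_of_mem (Finset.mem_sdiff.2 ⟨hxS, hxT⟩), hn]
      rfl
    · intro y hy
      rcases Finset.mem_insert.1 hy with rfl | hy
      · exact hx0
      · rw [hρ y hy]; exact hpos y hy

/-- farthest-first traversal -/
theorem traversal (S : Finset (ℝ × ℝ)) (hS : S.Nonempty) : ∃ ρ : ℝ × ℝ → ℝ,
    (∀ x ∈ S, 0 < ρ x) ∧ (∀ x ∈ S, ∀ y ∈ S, x ≠ y → min (ρ x) (ρ y) ≤ dd x y) ∧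
    ∀ p ∈ S, ∀ s ∈ S, ∀ t, 0 < t → t ≤ dd p s → ∃ y ∈ S, t ≤ ρ y ∧ dd y p ≤ t := by
  classical
  obtain ⟨x₀, hx₀⟩ := hS
  -- a bound for all distances
  obtain ⟨R, hR0, hR⟩ : ∃ R : ℝ, 0 < R ∧ ∀ p ∈ S, ∀ s ∈ S, dd p s ≤ R := by
    refine ⟨1 + ∑ p ∈ S, ∑ s ∈ S, dd p s, ?_, ?_⟩
    · have : 0 ≤ ∑ p ∈ S, ∑ s ∈ S, dd p s :=
        Finset.sum_nonneg fun p _ => Finset.sum_nonneg fun s _ => dd_nonneg p s
      linarith
    · intro p hp s hs
      have h1 : dd p s ≤ ∑ s ∈ S, dd p s :=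
        Finset.single_le_sum (f := fun s => dd p s) (fun s _ => dd_nonneg p s) hs
      have h2 : ∑ s ∈ S, dd p s ≤ ∑ p ∈ S, ∑ s ∈ S, dd p s :=
        Finset.single_le_sum (f := fun p => ∑ s ∈ S, dd p s)
          (fun p _ => Finset.sum_nonneg fun s _ => dd_nonneg p s) hp
      linarith
  have hInv : Inv S R {x₀} (fun _ => R) R := by
    refine ⟨by simpa using hx₀, fun x _ => le_refl R, ?_, ?_, ?_⟩
    · intro p hp
      exact ⟨x₀, by simp, hR x₀ hx₀ p hp⟩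
    · intro x hx y hy hxy
      rw [Finset.mem_singleton] at hx hy
      exact absurd (hx.trans hy.symm) hxy
    · intro p hp t ht htR
      exact ⟨x₀, by simp, htR, (hR x₀ hx₀ p hp).trans ht⟩
  obtain ⟨ρ, m, h, hpos⟩ := full R _ {x₀} (fun _ => R) R rfl hInv (fun _ _ => hR0)
  refine ⟨ρ, hpos, h.sep, ?_⟩
  intro p hp s hs t ht hts
  rcases le_or_gt m t with hmt | hmt
  · exact h.net p hp t hmt (hts.trans (hR p hp s hs))
  · exact ⟨p, hp, hmt.le.trans (h.low p hp), by rw [dd_self]; exact ht.le⟩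

end Pool.Agent.K9h63.HS
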